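import Mathlib

/-!
# MP_f3603a_co: the vertex-deletion identity for `nu` on Eulerian graphs (Q1 is true)

Moving the top vertex of a permutation to the bottom changes the descent parity by the degree of
that vertex, which is even.  Hence every vertex contributes the same amount to `A_D(-1)`.
-/

namespace Pool.Agent.Results.MP_f3603a_co.Rotation

open Finset

/-- The relation `D` (arcs `u → w` are the pairs with `D u w`) is an orientation of `G`:
every edge is directed exactly one way and there are no other arcs. -/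
def IsOrientation {V : Type} (G : SimpleGraph V) (D : V → V → Prop) : Prop :=
  (∀ u w, G.Adj u w ↔ (D u w ∨ D w u)) ∧ ∀ u w, D u w → ¬ D w u

open Classical in
/-- Number of `D`-descents of `σ`: arcs `u → w` with `σ u > σ w`. -/
noncomputable def des {V : Type} [Fintype V] {n : ℕ} (D : V → V → Prop) (σ : V ≃ Fin n) : ℕ :=
  (univ.filter fun p : V × V => D p.1 p.2 ∧ σ p.2 < σ p.1).card

open Classical in
/-- The Eulerian polynomial `A_D(t)`: the sum of `t ^ des` over all bijections `V → [n]`,
`n = |V|`. -/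
noncomputable def eulerian {V : Type} [Fintype V] (D : V → V → Prop) : Polynomial ℤ :=
  ∑ σ : V ≃ Fin (Fintype.card V), Polynomial.X ^ des D σ

open Classical in
noncomputable def sg {V : Type} [Fintype V] {n : ℕ} (D : V → V → Prop) (σ : V ≃ Fin n) : ℤ :=
  ∏ p ∈ univ.filter (fun p : V × V => D p.1 p.2), if σ p.2 < σ p.1 then -1 else 1

open Classical in
noncomputable def tot {V : Type} [Fintype V] (D : V → V → Prop) (n : ℕ) : ℤ :=
  ∑ σ : V ≃ Fin n, sg D σ

theorem sg_eq {V : Type} [Fintype V] {n : ℕ} (D : V → V → Prop) (σ : V ≃ Fin n) :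
    sg D σ = (-1) ^ des D σ := by
  classical
  unfold sg des
  rw [prod_ite, prod_const_one, mul_one, prod_const, filter_filter]

theorem eval_eq {V : Type} [Fintype V] (D : V → V → Prop) :
    (eulerian D).eval (-1) = tot D (Fintype.card V) := by
  unfold eulerian tot
  rw [Polynomial.eval_finset_sum]
  refine sum_congr rfl fun σ _ => ?_
  rw [sg_eq]; simp

theorem sg_sq {V : Type} [Fintype V] {n : ℕ} (D : V → V → Prop) (σ : V ≃ Fin n) :
    sg D σ * sg D σ = 1 := by
  rw [sg_eq, ← mul_pow]; simp

open Classical in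
/-- Kalai: two orientations differ by a constant sign. -/
theorem sg_orient {V : Type} [Fintype V] {n : ℕ} (G : SimpleGraph V) (D E : V → V → Prop)
    (hD : IsOrientation G D) (hE : IsOrientation G E) (σ : V ≃ Fin n) :
    sg E σ = (-1) ^ (univ.filter fun p : V × V => D p.1 p.2 ∧ ¬ E p.1 p.2).card * sg D σ := by
  unfold sg
  rw [← prod_filter_mul_prod_filter_not (univ.filter fun p : V × V => D p.1 p.2)
    (fun p => E p.1 p.2), ← prod_filter_mul_prod_filter_not (univ.filter fun p : V × V => E p.1 p.2)
    (fun p => D p.1 p.2), filter_filter, filter_filter, filter_filter, filter_filter]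
  have h1 : (univ.filter fun p : V × V => E p.1 p.2 ∧ D p.1 p.2) =
      univ.filter fun p : V × V => D p.1 p.2 ∧ E p.1 p.2 := by
    ext p; simp [and_comm]
  have h2 : (∏ p ∈ univ.filter (fun p : V × V => E p.1 p.2 ∧ ¬ D p.1 p.2),
      if σ p.2 < σ p.1 then (-1 : ℤ) else 1) =
      ∏ p ∈ univ.filter (fun p : V × V => D p.1 p.2 ∧ ¬ E p.1 p.2),
        (-1) * if σ p.2 < σ p.1 then (-1 : ℤ) else 1 := by
    refine prod_nbij' Prod.swap Prod.swap ?_ ?_ (by simp) (by simp) ?_
    · rintro ⟨u, w⟩ hp
      simp only [mem_filter, mem_univ, true_and, Prod.swap] at hp ⊢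
      have := (hD.1 u w).1 ((hE.1 u w).2 (Or.inl hp.1))
      exact ⟨by tauto, hE.2 _ _ hp.1⟩
    · rintro ⟨u, w⟩ hp
      simp only [mem_filter, mem_univ, true_and, Prod.swap] at hp ⊢
      have := (hE.1 u w).1 ((hD.1 u w).2 (Or.inl hp.1))
      exact ⟨by tauto, hD.2 _ _ hp.1⟩
    · rintro ⟨u, w⟩ hp
      simp only [mem_filter, mem_univ, true_and, Prod.swap] at hp ⊢
      have hne : u ≠ w := ((hE.1 u w).2 (Or.inl hp.1)).ne
      have hne' : σ u ≠ σ w := fun h => hne (σ.injective h)
      rcases lt_or_gt_of_ne hne' with h | h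
      · simp [h, not_lt_of_gt h]
      · simp [h, not_lt_of_gt h]
  rw [h1, h2, prod_mul_distrib, prod_const]
  ring

theorem tot_orient {V : Type} [Fintype V] (n : ℕ) (G : SimpleGraph V) (D E : V → V → Prop)
    (hD : IsOrientation G D) (hE : IsOrientation G E) : |tot E n| = |tot D n| := by
  unfold tot
  rw [sum_congr rfl fun σ _ => sg_orient G D E hD hE σ, ← mul_sum, abs_mul]
  simp

open Classical in
theorem card_inc {V : Type} [Fintype V] (G : SimpleGraph V) [DecidableRel G.Adj]
    (D : V → V → Prop) (hD : IsOrientation G D) (v : V) :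
    (univ.filter fun p : V × V => D p.1 p.2 ∧ (p.1 = v ∨ p.2 = v)).card = G.degree v := by
  rw [← G.card_neighborFinset_eq_degree]
  symm
  refine card_nbij' (fun w => if D v w then (v, w) else (w, v))
    (fun p => if p.1 = v then p.2 else p.1) ?_ ?_ ?_ ?_
  · intro w hw
    have hw' : G.Adj v w := by simpa using hw
    have := (hD.1 v w).1 hw'
    by_cases h : D v w
    · simp [h]
    · have h' : D w v := by tauto
      simp [h, h']
  · rintro ⟨a, b⟩ hp
    simp only [coe_filter, mem_univ, true_and, Set.mem_setOf_eq] at hp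
    obtain ⟨hab, h⟩ := hp
    have hadj := (hD.1 a b).2 (Or.inl hab)
    by_cases ha : a = v
    · subst ha; simpa using hadj
    · have hb : b = v := by tauto
      subst hb
      simpa [ha] using hadj.symm
  · intro w hw
    have hw' : G.Adj v w := by simpa using hw
    by_cases h : D v w
    · simp [h]
    · simp [h, hw'.ne.symm]
  · rintro ⟨a, b⟩ hp
    simp only [coe_filter, mem_univ, true_and, Set.mem_setOf_eq] at hp
    obtain ⟨hab, h⟩ := hp
    by_cases ha : a = v
    · subst ha; simp [hab]
    · have hb : b = v := by tauto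
      subst hb
      simp [ha, hD.2 _ _ hab]

theorem rot_lt {m : ℕ} (a b : Fin (m + 1)) (ha : a ≠ Fin.last m) (hb : b ≠ Fin.last m) :
    finRotate (m + 1) a < finRotate (m + 1) b ↔ a < b := by
  rw [Fin.lt_def, Fin.lt_def, coe_finRotate_of_ne_last ha, coe_finRotate_of_ne_last hb]
  omega

open Classical in
theorem sg_rot {V : Type} [Fintype V] {m : ℕ} (G : SimpleGraph V) [DecidableRel G.Adj]
    (D : V → V → Prop) (hD : IsOrientation G D) (hev : ∀ v, Even (G.degree v))
    (σ : V ≃ Fin (m + 1)) : sg D (σ.trans (finRotate (m + 1))) = sg D σ := by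
  obtain ⟨v, hv⟩ := σ.surjective (Fin.last m)
  have key : sg D (σ.trans (finRotate (m + 1))) =
      (∏ p ∈ univ.filter (fun p : V × V => D p.1 p.2),
        if p.1 = v ∨ p.2 = v then (-1 : ℤ) else 1) * sg D σ := by
    unfold sg
    rw [← prod_mul_distrib]
    refine prod_congr rfl ?_
    rintro ⟨a, b⟩ hp
    have hab : D a b := by simpa using hp
    have hne : a ≠ b := ((hD.1 a b).2 (Or.inl hab)).ne
    have hl : ∀ x, x ≠ v → σ x ≠ Fin.last m := fun x hx h => hx (σ.injective (h.trans hv.symm))
    show (if finRotate (m + 1) (σ b) < finRotate (m + 1) (σ a) then (-1 : ℤ) else 1) =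
      (if a = v ∨ b = v then -1 else 1) * if σ b < σ a then -1 else 1
    by_cases ha : a = v
    · subst ha
      have hb := hl b hne.symm
      have h1 : σ b < σ a := by rw [hv]; exact Fin.lt_last_iff_ne_last.2 hb
      have h2 : ¬ finRotate (m + 1) (σ b) < finRotate (m + 1) (σ a) := by
        rw [hv, finRotate_last]; exact Fin.not_lt_zero _
      simp [h1, h2, -finRotate_apply, -finRotate_succ_apply]
    · by_cases hb : b = v
      · subst hb
        have ha' := hl a ha
        have h1 : ¬ σ b < σ a := by rw [hv]; exact not_lt.2 (Fin.le_last _)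
        have h2 : finRotate (m + 1) (σ b) < finRotate (m + 1) (σ a) := by
          rw [hv, finRotate_last, Fin.lt_def, coe_finRotate_of_ne_last ha']; simp
        simp [h1, h2, -finRotate_apply, -finRotate_succ_apply]
      · simp only [rot_lt _ _ (hl b hb) (hl a ha)]
        simp [ha, hb]
  rw [key, prod_ite, prod_const_one, mul_one, prod_const, filter_filter, card_inc G D hD v,
    (hev v).neg_one_pow, one_mul]

open Classical in
noncomputable def part {V : Type} [Fintype V] {m : ℕ} (D : V → V → Prop) (v : V)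
    (j : Fin (m + 1)) : ℤ :=
  ∑ σ ∈ univ.filter (fun σ : V ≃ Fin (m + 1) => σ v = j), sg D σ

theorem part_rot {V : Type} [Fintype V] {m : ℕ} (G : SimpleGraph V) [DecidableRel G.Adj]
    (D : V → V → Prop) (hD : IsOrientation G D) (hev : ∀ v, Even (G.degree v)) (v : V)
    (j : Fin (m + 1)) : part D v (finRotate (m + 1) j) = part D v j := by
  classical
  unfold part
  symm
  refine sum_nbij' (fun σ => σ.trans (finRotate (m + 1)))
    (fun σ => σ.trans (finRotate (m + 1)).symm) ?_ ?_ ?_ ?_ ?_
  · intro σ h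
    simp only [mem_filter, mem_univ, true_and, Equiv.trans_apply] at h ⊢
    rw [h]
  · intro σ h
    simp only [mem_filter, mem_univ, true_and, Equiv.trans_apply] at h ⊢
    rw [h, Equiv.symm_apply_apply]
  · intro σ _; simp [Equiv.trans_assoc]
  · intro σ _; simp [Equiv.trans_assoc]
  · intro σ _; exact (sg_rot G D hD hev σ).symm

theorem part_const {V : Type} [Fintype V] {m : ℕ} (G : SimpleGraph V) [DecidableRel G.Adj]
    (D : V → V → Prop) (hD : IsOrientation G D) (hev : ∀ v, Even (G.degree v)) (v : V)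
    (j : Fin (m + 1)) : part D v j = part D v (0 : Fin (m + 1)) := by
  induction j using Fin.induction with
  | zero => rfl
  | succ i ih =>
    have : finRotate (m + 1) i.castSucc = i.succ := by
      apply Fin.ext
      rw [coe_finRotate_of_ne_last (Fin.castSucc_lt_last i).ne]; simp
    rw [← this, part_rot G D hD hev, ih]

theorem tot_part {V : Type} [Fintype V] {m : ℕ} (G : SimpleGraph V) [DecidableRel G.Adj]
    (D : V → V → Prop) (hD : IsOrientation G D) (hev : ∀ v, Even (G.degree v)) (v : V) :
    tot D (m + 1) = (m + 1 : ℤ) * part D v (Fin.last m) := by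
  classical
  have h : tot D (m + 1) = ∑ j : Fin (m + 1), part D v j := by
    unfold tot part
    rw [sum_fiberwise_of_maps_to (g := fun σ : V ≃ Fin (m + 1) => σ v) (fun _ _ => mem_univ _)]
  rw [h, sum_congr rfl fun j _ => part_const G D hD hev v j, part_const G D hD hev v (Fin.last m)]
  simp

/-- Extend a bijection on `V - v` by putting `v` on top. -/
def ext {V : Type} [DecidableEq V] {m : ℕ} (v : V) (τ : {w // w ≠ v} ≃ Fin m) : V ≃ Fin (m + 1) :=
  (Equiv.optionSubtypeNe v).symm.trans (τ.optionCongr.trans finSuccEquivLast.symm)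

theorem ext_self {V : Type} [DecidableEq V] {m : ℕ} (v : V) (τ : {w // w ≠ v} ≃ Fin m) :
    ext v τ v = Fin.last m := by
  simp [ext]

theorem ext_ne {V : Type} [DecidableEq V] {m : ℕ} (v : V) (τ : {w // w ≠ v} ≃ Fin m) (w : V)
    (hw : w ≠ v) : ext v τ w = (τ ⟨w, hw⟩).castSucc := by
  simp [ext, Equiv.optionSubtypeNe_symm_of_ne hw]

open Classical in
theorem sg_ext {V : Type} [Fintype V] {m : ℕ} (D : V → V → Prop) (hirr : ∀ u, ¬ D u u) (v : V)
    [Fintype {w // w ≠ v}] (τ : {w // w ≠ v} ≃ Fin m) :
    sg D (ext v τ) = (∏ p ∈ univ.filter (fun p : V × V => D p.1 p.2 ∧ (p.1 = v ∨ p.2 = v)),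
      if p.1 = v then (-1 : ℤ) else 1) * sg (fun a b : {w // w ≠ v} => D a b) τ := by
  unfold sg
  rw [← prod_filter_mul_prod_filter_not (univ.filter fun p : V × V => D p.1 p.2)
    (fun p => p.1 = v ∨ p.2 = v), filter_filter, filter_filter]
  congr 1
  · refine prod_congr rfl ?_
    rintro ⟨a, b⟩ hp
    simp only [mem_filter, mem_univ, true_and] at hp
    obtain ⟨hab, h⟩ := hp
    have hne : a ≠ b := fun h => hirr a (by rw [← h] at hab; exact hab)
    by_cases ha : a = v
    · subst ha
      simp only [ext_self, ext_ne a τ b hne.symm, Fin.castSucc_lt_last, if_true]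
    · have hb : b = v := by tauto
      subst hb
      simp only [ext_self, ha, if_false, not_lt.2 (Fin.le_last _)]
  · symm
    refine prod_bij (fun p _ => (p.1.1, p.2.1)) ?_ ?_ ?_ ?_
    · rintro ⟨a, b⟩ hp
      simp only [mem_filter, mem_univ, true_and] at hp ⊢
      exact ⟨hp, fun h => h.elim a.2 b.2⟩
    · rintro ⟨a, b⟩ _ ⟨c, d⟩ _ h
      simp only [Prod.mk.injEq] at h
      exact Prod.ext (Subtype.ext h.1) (Subtype.ext h.2)
    · rintro ⟨a, b⟩ hp
      simp only [mem_filter, mem_univ, true_and, not_or] at hp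
      exact ⟨(⟨a, hp.2.1⟩, ⟨b, hp.2.2⟩), by simpa using hp.1, rfl⟩
    · rintro ⟨a, b⟩ _
      simp only [ext_ne v τ a.1 a.2, ext_ne v τ b.1 b.2, Fin.castSucc_lt_castSucc_iff]

theorem tot_eq {W : Type} [Fintype W] (D : W → W → Prop) (n : ℕ) (i : Fintype (W ≃ Fin n)) :
    tot D n = ∑ σ ∈ @univ _ i, sg D σ := by
  unfold tot
  rw [Subsingleton.elim i]

open Classical in
theorem part_last {V : Type} [Fintype V] {m : ℕ} (D : V → V → Prop) (hirr : ∀ u, ¬ D u u)
    (v : V) [Fintype {w // w ≠ v}] : |part D v (Fin.last m)| = |tot (fun a b : {w // w ≠ v} => D a b) m| := by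
  have h : part D v (Fin.last m) = ∑ τ : {w // w ≠ v} ≃ Fin m, sg D (ext v τ) := by
    unfold part
    symm
    refine sum_bij (fun τ _ => ext v τ) ?_ ?_ ?_ (fun _ _ => rfl)
    · intro τ _; simp [ext_self]
    · intro τ _ τ' _ h
      ext w
      have := congrArg (fun σ : V ≃ Fin (m + 1) => σ w.1) h
      simp only [ext_ne v _ w.1 w.2] at this
      rw [Fin.castSucc_injective _ this]
    · intro σ hσ
      have hv : σ v = Fin.last m := by simpa using hσ
      refine ⟨⟨fun w => (σ w.1).castPred (fun h => w.2 (σ.injective (h.trans hv.symm))),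
        fun j => ⟨σ.symm j.castSucc, fun h => (Fin.castSucc_lt_last j).ne
          (by rw [← hv, ← h, Equiv.apply_symm_apply])⟩, fun w => by simp, fun j => by simp⟩,
        mem_univ _, ?_⟩
      ext w
      by_cases hw : w = v
      · subst hw; rw [ext_self, hv]
      · rw [ext_ne v _ w hw]; simp
  rw [h, sum_congr rfl fun τ _ => sg_ext D hirr v τ, ← mul_sum, abs_mul, abs_prod]
  rw [prod_eq_one, one_mul, tot_eq _ _ inferInstance]
  intro p _; split_ifs <;> simp

/-- For every Eulerian graph `G` with at least one vertex, every orientation `D` of `G` and all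
orientations `E v` of the vertex-deleted graphs `G - v`:
`|A_D(-1)| = ∑ v, |A_{E v}(-1)|`. -/
theorem result (V : Type) [Fintype V] [DecidableEq V] [Nonempty V] (G : SimpleGraph V)
    [DecidableRel G.Adj] (hev : ∀ v, Even (G.degree v))
    (D : V → V → Prop) (hD : IsOrientation G D)
    (E : ∀ v : V, ({w | w ≠ v} : Set V) → ({w | w ≠ v} : Set V) → Prop)
    (hE : ∀ v, IsOrientation (G.induce {w | w ≠ v}) (E v)) :
    |(eulerian D).eval (-1)| = ∑ v, |(eulerian (E v)).eval (-1)| := by
  obtain ⟨m, hm⟩ : ∃ m, Fintype.card V = m + 1 :=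
    Nat.exists_eq_succ_of_ne_zero Fintype.card_ne_zero
  have hirr : ∀ u, ¬ D u u := fun u h => hD.2 u u h h
  have hv : ∀ v, |tot D (m + 1)| = (m + 1 : ℤ) * |(eulerian (E v)).eval (-1)| := by
    intro v
    have hc : Fintype.card ({w | w ≠ v} : Set V) = m := by
      have := Fintype.card_subtype_compl (fun w : V => w = v)
      simp only [Fintype.card_unique] at this
      have h2 : Fintype.card ({w | w ≠ v} : Set V) = Fintype.card {w // ¬ w = v} :=
        Fintype.card_congr (Equiv.refl _)
      omega
    have hR : IsOrientation (G.induce {w | w ≠ v})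
        (fun a b : ({w | w ≠ v} : Set V) => D a b) :=
      ⟨fun a b => hD.1 a b, fun a b => hD.2 a b⟩
    rw [eval_eq, hc, tot_orient m _ _ _ hR (hE v), tot_part G D hD hev v, abs_mul,
      @part_last V _ m D hirr v (inferInstanceAs (Fintype ({w | w ≠ v} : Set V))),
      abs_of_nonneg (by positivity)]
    rfl
  rw [eval_eq, hm]
  have h1 : (m + 1 : ℤ) * ∑ v, |(eulerian (E v)).eval (-1)| = (m + 1 : ℤ) * |tot D (m + 1)| := by
    rw [mul_sum, sum_congr rfl fun v _ => (hv v).symm]
    simp [hm]
  exact (mul_left_cancel₀ (by positivity) h1).symm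

end Pool.Agent.Results.MP_f3603a_co.Rotation
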